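import Pool.Agent.Lib.MP_799fdf_al.Exi.Fin

/-!
# MP_799fdf_al: a criterion for the groups whose local subgroups `(R, N)` have central `N`

Let `G` be a finite group. Call `(R, N)` local (`IsLocal`) if `R` is a perfect normal subgroup of `G` and `N` is its largest
proper `G`-normal subgroup; let `Z = C_G(R)`. Suppose that `[N, R] = 1` for all local pairs.

A lifting system (`LiftSys`) consists, for all local `R`, of a finite perfect group `U_R` and a surjective homomorphism
`f : U_R → R` such that `f⁻¹(Z)` is central in `U_R`, and such that all isomorphisms `σ : G / C_G(R) → G / C_G(R')` have lifts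
(`IsLift`), i.e. isomorphisms `b : U_R → U_R'` with `f(b(u)) C_G(R') = σ(f(u) C_G(R))`.

(a) There is a lifting system such that, for all local `R`, only `u = 1` satisfies `f(b(u)) = 1` for all lifts `b` from `U_R` to
all `U_R'`.

(b) Consider any lifting system. A prime `p` is critical for `R` (`Critical`) if there are `Y < H ≤ f⁻¹(Z)` and `C ≤ G` such that
`H` and `Y` are invariant under all lifts of inner automorphisms of `G / Z`, the lifts of the automorphisms of `G / Z` that are
trivial modulo `R Z / Z` (`TrivMod`) and the lifts of the inner automorphisms given by the elements of `C` act trivially on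
`H / Y`, and `p` divides `|H / Y|` and `|C R Z : R Z|`. It is tame for `R` (`Tame`) if there are normal subgroups `A < B` and `D` of
`G` and subgroups `Y < H ≤ f⁻¹(Z)` such that `R Z ≤ A`, `A / Z` is characteristic in `G / Z`, `B / A` is abelian, `p` divides
`|B / A|` and `|H / Y|`, the lifts of the automorphisms of `G / Z` that are trivial modulo `A / Z` act trivially on `H / Y`,
`D ≤ Z` contains all `L ≠ R` from local pairs `(L, M)` with `|L / M| = |R / N|`, and `Y` contains all `u` with `f(b(u)) ∈ D` for
all lifts `b : U_R → U_R`. If all critical primes are tame then `form G` has only finitely many subformations if and only if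
there is no critical prime.
-/

set_option autoImplicit false

open scoped commutatorElement

namespace Pool.Agent.Results.MP_799fdf_al.IffCriterion

open MP799fdf MP799fdf.Exi

theorem result (G : Type) [Group G] [Finite G]
    (hcen : ∀ R N : Subgroup G, IsLocal R N → ⁅N, R⁆ = ⊥) :
    (∃ (U : Subgroup G → Type) (_ : ∀ R, Group (U R)) (_ : ∀ R, Finite (U R))
      (f : ∀ R, U R →* G), LiftSys G U f ∧
        ∀ R N : Subgroup G, IsLocal R N → ∀ u : U R,
          (∀ (N' Z R' Z' : Subgroup G) [Z.Normal] [Z'.Normal], IsLocal R' N' →
            Z = Subgroup.centralizer (R : Set G) → Z' = Subgroup.centralizer (R' : Set G) →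
              ∀ (σ : (G ⧸ Z) ≃* (G ⧸ Z')) (b : U R ≃* U R'), IsLift (f R) (f R') σ b →
                f R' (b u) = 1) → u = 1) ∧
    ∀ (U : Subgroup G → Type) [∀ R, Group (U R)] [∀ R, Finite (U R)] (f : ∀ R, U R →* G),
      LiftSys G U f →
      (∀ (R N Z : Subgroup G) [Z.Normal], IsLocal R N → Z = Subgroup.centralizer (R : Set G) →
        ∀ p, Critical p R Z (f R) → Tame p R N Z (f R)) →
      ({F : Formation | F.IsSub (form G)}.Finite ↔
        ∀ (R N Z : Subgroup G) [Z.Normal] (p : ℕ), IsLocal R N →
          Z = Subgroup.centralizer (R : Set G) → ¬ Critical p R Z (f R)) := by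
  have h1 : Tz.CZ G := fun L N h => hcen L N ((isLocal_iff L N).2 h)
  exact ⟨exists_sys h1, fun U _ _ f hf hT => criterion h1 U f hf hT⟩

end Pool.Agent.Results.MP_799fdf_al.IffCriterion
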