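import Pool.Agent.Lib.MP_799fdf_al.Str.C3

/-!
# MP_799fdf_al: a condition for infinitely many subformations

Let `G` be a finite group, `R` a perfect normal subgroup, `N < R` its largest proper `G`-normal subgroup, `[N, R] = 1`,
`Z = C_G(R)`. Let `f : U → R` be a surjective homomorphism from a finite perfect group such that `f⁻¹(Z)` is central in `U`
(for instance `U = R`). A lift of an automorphism `σ` of `G/Z` is an automorphism `b` of `U` with `f(b(u)) Z = σ(f(u) Z)`; suppose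
that all automorphisms of `G/Z` have lifts. Let `D ≤ Z` be normal in `G` and contain every perfect normal subgroup `L ≠ R` of
`G` that has a largest proper `G`-normal subgroup `M` with `|L/M| = |R/N|`. Let `A < B` be normal in `G`, `R Z ≤ A`, `B/A`
abelian, `Y < H ≤ f⁻¹(Z)` subgroups of `U`, `p` a prime divisor of `|B/A|` and `|H/Y|`. Suppose that `Y` contains all
`u ∈ U` with `f(b(u)) ∈ D` for all lifts `b`, and that either all lifts act trivially on `H/Y`, or `A/Z` is characteristic in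
`G/Z` and the lifts of the automorphisms that are trivial on `G/A` act trivially on `H/Y`. Then `form E` has infinitely many
subformations for every finite group `E` with `G` as a quotient.
-/

set_option autoImplicit false

open scoped commutatorElement

namespace Pool.Agent.Results.MP_799fdf_al.InfiniteCovers

open MP799fdf

theorem result (E G U : Type) [Group E] [Finite E] [Group G] [Finite G] [Group U] [Finite U]
    (π : E →* G) (hπ : Function.Surjective π) (p : ℕ) (hp : p.Prime) (R N Z D A B : Subgroup G)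
    (hR : R.Normal) (hN : N.Normal) [Z.Normal] (hD : D.Normal) (hA : A.Normal) (hB : B.Normal)
    (hNR : N < R) (hperf : ⁅R, R⁆ = R)
    (hmax : ∀ M : Subgroup G, M.Normal → M ≤ R → M ≤ N ∨ M = R)
    (hZ : ∀ g : G, g ∈ Z ↔ ∀ r ∈ R, g * r = r * g) (hNZ : N ≤ Z)
    (f : U →* G) (hf : f.range = R) (hU : ⁅(⊤ : Subgroup U), (⊤ : Subgroup U)⁆ = ⊤)
    (hfZ : ∀ u, f u ∈ Z → ∀ v, u * v = v * u)
    (hlift : ∀ σ : (G ⧸ Z) ≃* (G ⧸ Z), ∃ b : U ≃* U,
      ∀ u, ((f (b u) : G) : G ⧸ Z) = σ ((f u : G) : G ⧸ Z))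
    (hDZ : D ≤ Z)
    (hother : ∀ L M : Subgroup G, L.Normal → M.Normal → M < L → ⁅L, L⁆ = L →
      (∀ K : Subgroup G, K.Normal → K ≤ L → K ≤ M ∨ K = L) →
      M.relIndex L = N.relIndex R → L = R ∨ L ≤ D)
    (hRZA : R ⊔ Z ≤ A) (hAB : A < B) (hBA : ⁅B, B⁆ ≤ A) (hpB : p ∣ A.relIndex B)
    (H Y : Subgroup U) (hHZ : ∀ u ∈ H, f u ∈ Z) (hYH : Y < H) (hpH : p ∣ Y.relIndex H)
    (hDY : ∀ u : U, (∀ (σ : (G ⧸ Z) ≃* (G ⧸ Z)) (b : U ≃* U),
      (∀ u, ((f (b u) : G) : G ⧸ Z) = σ ((f u : G) : G ⧸ Z)) → f (b u) ∈ D) → u ∈ Y)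
    (hfix : (∀ (σ : (G ⧸ Z) ≃* (G ⧸ Z)) (b : U ≃* U),
        (∀ u, ((f (b u) : G) : G ⧸ Z) = σ ((f u : G) : G ⧸ Z)) → ∀ u ∈ H, b u * u⁻¹ ∈ Y) ∨
      ((∀ (σ : (G ⧸ Z) ≃* (G ⧸ Z)) (x y : G), σ (x : G ⧸ Z) = (y : G ⧸ Z) → x ∈ A → y ∈ A) ∧
        ∀ (σ : (G ⧸ Z) ≃* (G ⧸ Z)) (b : U ≃* U),
          (∀ u, ((f (b u) : G) : G ⧸ Z) = σ ((f u : G) : G ⧸ Z)) →
            (∀ x y : G, σ (x : G ⧸ Z) = (y : G ⧸ Z) → x⁻¹ * y ∈ A) →
              ∀ u ∈ H, b u * u⁻¹ ∈ Y)) :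
    {F : Formation | F.IsSub (form E)}.Infinite := by
  have hloc : Inn.Loc R N := ⟨hR, hN, hNR, hperf, hmax⟩
  have hS : Str.Dat G U R N Z f := ⟨hloc, hZ, hNZ, hf, hU, hfZ, hlift⟩
  have hu : ∀ L M : Subgroup G, Inn.Loc L M → M.relIndex L = N.relIndex R → L = R ∨ L ≤ D :=
    fun L M hL hi => hother L M hL.nR hL.nN hL.lt hL.perf hL.max hi
  have key : {F : Formation | F.IsSub (form G)}.Infinite := by
    rcases hfix with h | ⟨hc, h⟩
    · obtain ⟨A', B', hA', hB', hRZA', hAB', hBA', hpB', hc'⟩ :=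
        Str.exists_char_sec hp hS hA hB hRZA hAB hBA hpB
      exact Str.inf_covD hp hS hD hDZ hu ⟨A', B', H, Y, hA', hB', hRZA', hAB', hBA', hpB', hc',
        hYH.le, hHZ, hpH, hDY, fun σ b hb _ => h σ b hb⟩
    · exact Str.inf_covD hp hS hD hDZ hu ⟨A, B, H, Y, hA, hB, hRZA, hAB.le, hBA, hpB, hc,
        hYH.le, hHZ, hpH, hDY, h⟩
  refine key.mono fun F hF => ?_
  intro K _ _ hK
  exact form_le (form E) ((form E).of_surj π hπ (mem_form E)) K (hF K hK)

end Pool.Agent.Results.MP_799fdf_al.InfiniteCovers
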