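import Pool.Agent.Lib.MP_799fdf_al.Inn.Fin2

/-!
# MP_799fdf_al: groups whose outer parts over central sections have no abelian chief factors

Let `G` be a finite group. Suppose that for every perfect normal subgroup `R` of `G` with a largest
proper `G`-normal subgroup `N`, and all normal subgroups `Y < H ≤ R` of `G` with `[H, R] ≤ Y`, the
group `C_G(R/N) C_G(H/Y) / (R C_G(R/N))` has no abelian `G`-chief factor. Then `form G` has only
finitely many subformations.
-/

set_option autoImplicit false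

open scoped commutatorElement

namespace Pool.Agent.Results.MP_799fdf_al.NonabelianOuter

open MP799fdf

theorem result (G : Type) [Group G] [Finite G]
    (hG : ∀ R N H Y A B : Subgroup G, R.Normal → N.Normal → H.Normal → Y.Normal →
      A.Normal → B.Normal → N < R → ⁅R, R⁆ = R →
      (∀ M : Subgroup G, M.Normal → M ≤ R → M ≤ N ∨ M = R) →
      Y < H → H ≤ R → ⁅H, R⁆ ≤ Y →
      R ≤ A → (∀ g : G, (∀ x ∈ R, ⁅g, x⁆ ∈ N) → g ∈ A) → A < B →
      (∀ b ∈ B, ∃ c d : G, (∀ x ∈ R, ⁅c, x⁆ ∈ N) ∧ (∀ h ∈ H, ⁅d, h⁆ ∈ Y) ∧ b = c * d) →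
      ¬ ⁅B, B⁆ ≤ A) :
    {F : Formation | F.IsSub (form G)}.Finite := by
  refine Inn.main2 G fun R N H Y hL hH hY h1 h2 h3 A B hA hB hRA hcA hlt hBle => ?_
  refine hG R N H Y A B hL.nR hL.nN hH hY hA hB hL.lt hL.perf hL.max h1 h2 h3 hRA
    (fun g hg => hcA hg) hlt fun b hb => ?_
  have hn : (Inn.cen R N hL.nN).Normal := Inn.cen_normal R N hL.nR hL.nN
  obtain ⟨c, hc, d, hd, hcd⟩ := Subgroup.mem_sup_of_normal_left.1 (hBle hb)
  exact ⟨c, d, hc, hd, hcd.symm⟩

end Pool.Agent.Results.MP_799fdf_al.NonabelianOuter
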